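import Pool.Agent.helper12.TY.Spec

set_option autoImplicit false

namespace Pool.Agent.TY

open Pool.Agent.helper58.DC Pool.Agent.DI Pool.Agent.GR Pool.Agent.OB Pool.Agent.TZ

theorem YFR : YFR_stmt := by
  intro G E A _ _ _ _ _ X p M χ N hF
  constructor
  · intro U C hC ψ hψ hI u hu
    have h1 : (u : A) ∈ N := hu
    obtain ⟨e, he, hpe⟩ := hF C hC ψ hψ hI h1
    have hmem : e ∈ U.comap X.proj := by
      rw [Subgroup.mem_comap, hpe]
      exact u.2
    refine ⟨⟨e, hmem⟩, ?_, Subtype.ext hpe⟩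
    exact he
  · intro d V hV
    unfold altSum
    refine finsum_eq_zero_of_forall_eq_zero fun c => ?_
    have h0 : kC X p M χ d V c.out.1 = 0 := by
      unfold kC
      have hE : IsEmpty {ψ : G → ℂ // ψ ∈ IrrOn (nrm c.out.1) ∧ Defect p (nrm c.out.1) ψ d ∧ Induces M ψ χ ∧
          (X.stab c.out.1 ψ).map X.proj = V} := by
        refine ⟨?_⟩
        rintro ⟨ψ, h1, -, h2, h3⟩
        apply hV
        rw [← h3]
        exact hF c.out.1 c.out.2 ψ h1 h2
      exact Nat.card_of_isEmpty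
    rw [h0]
    simp

end Pool.Agent.TY
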